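import Mathlib
import Pool.Agent.V11167.BodDefs
import Pool.Agent.V11167.BodE

/-!
# Combinatorial types of arrangements of bodies are not locally determined
-/

namespace Pool.Agent.Results.MP_f9fe38_co.NotLocal

open Pool.Agent.V11167.Bod

/-- For `t ≥ 4` no integer `m` has the property asked for: combinatorial types of arrangements in
which every pair has at most `t` common supporting tangents are not determined by the
sub-arrangements with `m` members. More precisely, for every `M ≥ 1` there are two arrangements of
`2M + 2` bodies with at most four common supporting tangents per pair such that all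
corresponding proper sub-arrangements have the same combinatorial type, while no homeomorphism of
the cylinder which preserves `+∞` maps the support curves of the first one to those of the second
one. -/
theorem result :
    (∀ t : ℕ, 4 ≤ t → ∀ m : ℕ, ¬ Determined t m) ∧
    ∀ M : ℕ, 1 ≤ M → ∃ A B : Fin (2 * M + 2) → Set ℂ,
      IsArrangement A ∧ IsArrangement B ∧ AtMost 4 A ∧ AtMost 4 B ∧
      (∀ S : Finset (Fin (2 * M + 2)), S ≠ Finset.univ →
        SameType (fun i : S => A i) (fun i : S => B i)) ∧
      ¬ ∃ φ : Cyl ≃ₜ Cyl, PreservesTop φ ∧ ∀ i, φ '' curve (A i) = curve (B i) := by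
  constructor
  · intro t ht m h
    obtain ⟨hA, hB, h4A, h4B, hsub, hne⟩ := main (m + 1) (by omega)
    apply hne
    apply h (2 * (m + 1) + 2) _ _ (by omega) hA hB
      (fun i j hij => ⟨(h4A i j hij).1, (h4A i j hij).2.trans ht⟩)
      (fun i j hij => ⟨(h4B i j hij).1, (h4B i j hij).2.trans ht⟩)
    intro S hS
    apply hsub
    intro hcon
    rw [hcon, Finset.card_univ, Fintype.card_fin] at hS
    omega
  · intro M hM
    refine ⟨fun i => fam M 1 i, fun i => fam M (-1) i, ?_⟩
    obtain ⟨hA, hB, h4A, h4B, hsub, _⟩ := main M hM
    refine ⟨hA, hB, h4A, h4B, hsub, ?_⟩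
    rintro ⟨φ, hφ, h⟩
    apply not_same hM hφ
    intro j hj
    have := h ⟨j, by omega⟩
    simpa only [curve_fam] using this

end Pool.Agent.Results.MP_f9fe38_co.NotLocal
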